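import Mathlib

/-!
# Constant depth circuits over certificates, alternating trees (MP_675993_lc)
-/

set_option autoImplicit false

namespace Pool.Agent.PHS

/-- Every value of `F` has a certificate of at most `t` variables. -/
def CertC {ι : Type} (t : ℕ) (F : (ι → Bool) → Bool) : Prop :=
  ∀ v : ι → Bool, ∃ T : Finset ι, T.card ≤ t ∧ ∀ v' : ι → Bool, (∀ x ∈ T, v' x = v x) → F v' = F v

/-- Circuits of depth `k` and fan-in `2 ^ t` over functions with certificates of size `t`. -/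
def Lev {ι : Type} (t : ℕ) : ℕ → ((ι → Bool) → Bool) → Prop
  | 0, F => CertC t F
  | k + 1, F => ∃ (s : ℕ) (g : Fin s → (ι → Bool) → Bool), s ≤ 2 ^ t ∧ (∀ i, Lev t k (g i)) ∧
      ((∀ v, F v = true ↔ ∃ i, g i v = true) ∨ (∀ v, F v = true ↔ ∀ i, g i v = true))

/-- The alternating tree `∃ a₁ ¬ ∃ a₂ ¬ ... v [a₁, a₂, ..., a_K]`. -/
def Sip {A : Type} : ℕ → (List A → Bool) → Prop
  | 0, v => v [] = true
  | K + 1, v => ∃ a : A, ¬ Sip K (fun l => v (a :: l))

end Pool.Agent.PHS
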