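import Pool.Agent.Lib_helper74.CKF.ENUM
import Pool.Agent.Lib_helper74.CKF.MACH
import Pool.Agent.Lib_helper74.PHS.Lev

/-!
# The polynomial hierarchy relative to an oracle: definitions (MP_675993_lc)
-/

set_option autoImplicit false

namespace Pool.Agent.PHS

open Pool.Agent.CK

/-- The levels `Σ_k^P` of the polynomial hierarchy relative to `O` (with `Σ_0^P = P`). -/
def InSig (O : Lang) : ℕ → Lang → Prop
  | 0, L => InP O L
  | k + 1, L => ∃ B, InSig O k B ∧ InNP (join O B) L

/-- Indexed languages of the level `k`. -/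
noncomputable def SL : ℕ → List ℕ → Lang → Lang
  | 0, s, O => PL (s.headD 0) O
  | k + 1, s, O => NL (s.headD 0) (join O (SL k s.tail O))

/-- The alternation `∃ a₁ ¬ ∃ a₂ ¬ ... f (a₁ a₂ ... a_K)` over blocks of length `m`. -/
def alt : ℕ → ℕ → (List Bool → Prop) → Prop
  | 0, _, f => f []
  | K + 1, m, f => ∃ a : List Bool, a.length = m ∧ ¬ alt K m (fun l => f (a ++ l))

theorem exists_SL (O : Lang) : ∀ (k : ℕ) (L : Lang), InSig O k L → ∃ s, SL k s O = L := by
  intro k
  induction k with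
  | zero =>
    intro L h
    obtain ⟨i, hi⟩ := exists_PL h
    exact ⟨[i], hi⟩
  | succ k ih =>
    intro L h
    obtain ⟨B, hB, hL⟩ := h
    obtain ⟨s, hs⟩ := ih B hB
    obtain ⟨i, hi⟩ := exists_NL hL
    exact ⟨i :: s, by simp only [SL, List.headD_cons, List.tail_cons, hs, hi]⟩

/-- A collapse goes upwards. -/
theorem sig_collapse (O : Lang) (k : ℕ) (h : ∀ L, InSig O (k + 1) L → InSig O k L) :
    ∀ (j : ℕ) (L : Lang), InSig O (k + j) L → InSig O k L := by
  intro j
  induction j with
  | zero => intro L hL; exact hL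
  | succ j ih =>
    intro L hL
    obtain ⟨B, hB, hL⟩ := hL
    exact h L ⟨B, ih B hB, hL⟩

theorem InSig_of_le (O : Lang) {j k : ℕ} (hjk : j ≤ k) (L : Lang) (hL : InSig O j L)
    (hs : ∀ (k : ℕ) (L : Lang), InSig O k L → InSig O (k + 1) L) : InSig O k L := by
  obtain ⟨d, rfl⟩ := Nat.exists_eq_add_of_le hjk
  induction d with
  | zero => exact hL
  | succ d ih => exact hs _ _ (ih (Nat.le_add_right _ _))

end Pool.Agent.PHS
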