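import Pool.Agent.Lib_helper74.PHS.Defs
import Pool.Agent.Lib_helper74.NE.Comp

/-!
# Alternating search problems are in the polynomial hierarchy (MP_675993_lc)
-/

set_option autoImplicit false

namespace Pool.Agent.PHS

open Pool.Agent.CK Pool.Agent.CKP

variable {O : Lang}
variable {α β γ : Type} [ToD α] [ToD β] [ToD γ]

/-! ### the address of a secret -/

/-- one step of the interleaving -/
def ilS (q : List Bool × List Bool) (a : Bool) : List Bool × List Bool :=
  CKP.lcase q.1 q (fun b t => (t, b :: a :: q.2))

theorem ilS_foldl (x : List Bool) : ∀ (y acc : List Bool),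
    (x.foldl ilS (y, acc)).2 = (il x y).reverse ++ acc := by
  induction x with
  | nil => intro y acc; simp [il]
  | cons a x ih =>
    intro y acc
    cases y with
    | nil =>
      have h : ∀ (x : List Bool), x.foldl ilS (([] : List Bool), acc) = ([], acc) := by
        intro x
        induction x with
        | nil => rfl
        | cons a x ih => exact ih
      rw [h]
      simp [il]
    | cons b y =>
      rw [List.foldl_cons]
      change (x.foldl ilS (y, b :: a :: acc)).2 = _
      rw [ih]
      simp [il]

theorem PTime.saddr {f g : γ → List Bool} (hf : PTime O f) (hg : PTime O g) :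
    PTime O (fun c => CK.saddr (f c) (g c) true) := by
  have hs : PTime O (fun p : γ × (List Bool × List Bool) × Bool => ilS p.2.1 p.2.2) := by
    have h : PTime O (fun p : (List Bool × List Bool) × Bool => ilS p.1 p.2) := by
      unfold ilS
      refine PTime.lcase (l := fun p : (List Bool × List Bool) × Bool => p.1.1)
        (n := fun p => p.1) (c := fun p b t => (t, b :: p.2 :: p.1.2)) PTime.id.fst.fst
        PTime.id.fst ?_
      have h1 : PTime O (fun p : ((List Bool × List Bool) × Bool) × Bool × List Bool =>
        p.2.2) := PTime.id.snd.snd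
      have h2 : PTime O (fun p : ((List Bool × List Bool) × Bool) × Bool × List Bool =>
        p.2.1) := PTime.id.snd.fst
      have h3 : PTime O (fun p : ((List Bool × List Bool) × Bool) × Bool × List Bool =>
        p.1.2) := PTime.id.fst.snd
      have h4 : PTime O (fun p : ((List Bool × List Bool) × Bool) × Bool × List Bool =>
        p.1.1.2) := PTime.id.fst.fst.snd
      exact h1.pair (h2.cons (h3.cons h4))
    exact h.comp PTime.id.snd
  have h := PTime.foldl_add (l := f) (i := fun c => (g c, ([] : List Bool)))
    (s := fun (_ : γ) (q : List Bool × List Bool) (a : Bool) => ilS q a) hf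
    (hg.pair (PTime.const _)) hs (Polynomial.C 8) (by
      intro c q a _
      rw [Polynomial.eval_C]
      obtain ⟨y, acc⟩ := q
      cases y with
      | nil => change sz (([] : List Bool), acc) ≤ _; omega
      | cons b t =>
        change sz (t, b :: a :: acc) ≤ _
        rw [sz_pair, sz_pair, sz_cons, sz_cons, sz_cons]
        have h1 := num_bool_sz a
        have h2 := num_bool_sz b
        omega)
  refine (PTime.cons (PTime.const false) (PTime.cons (PTime.const true) h.snd)).of_eq fun c => ?_
  show false :: true :: ((f c).foldl ilS (g c, [])).2 = _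
  rw [ilS_foldl, List.append_nil]
  rfl

/-! ### reading an instance -/

/-- the instance coded by a string: a unary number, a prefix, a slot -/
def rd (w : List Bool) : List Unit × List Bool × List Bool :=
  (CKP.ulen (CKP.toList (CKP.dec w).car), CKP.toBits (CKP.dec w).cdr.car,
    CKP.toBits (CKP.dec w).cdr.cdr)

/-- the code of an instance -/
def wr (q : List Unit × List Bool × List Bool) : List Bool := (ToD.toD q).enc

theorem rd_wr (q : List Unit × List Bool × List Bool) : rd (wr q) = q := by
  obtain ⟨u, p, x⟩ := q
  unfold rd wr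
  rw [dec_enc]
  have h1 : (ToD.toD (u, p, x) : D).car = ToD.toD u := rfl
  have h2 : (ToD.toD (u, p, x) : D).cdr.car = ToD.toD p := rfl
  have h3 : (ToD.toD (u, p, x) : D).cdr.cdr = ToD.toD x := rfl
  rw [h1, h2, h3, toBits_toD, toBits_toD, toList_toD, ulen_eq, List.length_map]
  congr 1
  exact (List.eq_replicate_iff.2 ⟨rfl, fun b _ => rfl⟩).symm

theorem rd_ptime : PTime O rd := by
  unfold rd
  have h : PTime O (fun w : List Bool => CKP.dec w) := PTime.dec PTime.id
  exact (h.car.toList.ulen).pair (h.cdr.car.toBits.pair h.cdr.cdr.toBits)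

theorem PTime.wr {f : γ → List Unit × List Bool × List Bool} (hf : PTime O f) :
    PTime O (fun c => PHS.wr (f c)) := PTime.enc hf.code

/-- the instance `(1^m, x)` as it is presented to the final language -/
def prs (w : List Bool) : List Unit × List Bool :=
  List.rec (motive := fun _ => List Unit × List Bool) ([], [])
    (fun a t r => if a = true then (() :: r.1, r.2) else ([], t)) w

theorem prs_ones (m : ℕ) (x : List Bool) :
    prs (ones m ++ false :: x) = (List.replicate m (), x) := by
  induction m with
  | zero => rfl
  | succ m ih =>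
    have h : prs (ones (m + 1) ++ false :: x) =
      (() :: (prs (ones m ++ false :: x)).1, (prs (ones m ++ false :: x)).2) := rfl
    rw [h, ih]
    rfl

theorem prs_ptime : PTime O prs := by
  unfold prs
  refine PTime.listRec_add (l := fun w : List Bool => w)
    (n := fun _ => (([] : List Unit), ([] : List Bool)))
    (c := fun _ a t r => if a = true then (() :: r.1, r.2) else ([], t))
    PTime.id (PTime.const _) ?_ (Polynomial.X + 3) ?_
  · have h1 : PTime O (fun p : List Bool × Bool × List Bool × (List Unit × List Bool) =>
      p.2.1) := PTime.id.snd.fst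
    have h2 : PTime O (fun p : List Bool × Bool × List Bool × (List Unit × List Bool) =>
      p.2.2.1) := PTime.id.snd.snd.fst
    have h3 : PTime O (fun p : List Bool × Bool × List Bool × (List Unit × List Bool) =>
      p.2.2.2.1) := PTime.id.snd.snd.snd.fst
    have h4 : PTime O (fun p : List Bool × Bool × List Bool × (List Unit × List Bool) =>
      p.2.2.2.2) := PTime.id.snd.snd.snd.snd
    exact PTime.ite h1 ((PTime.cons (PTime.const ()) h3).pair h4)
      ((PTime.const ([] : List Unit)).pair h2)
  · intro w b a t ht
    have h1 := sz_le_of_suffix ht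
    have h2 : sz t ≤ sz (a :: t) := by rw [sz_cons]; omega
    simp only [Polynomial.eval_add, Polynomial.eval_X, Polynomial.eval_ofNat]
    have hb := sz_pos b
    by_cases ha : a = true
    · rw [if_pos ha]
      obtain ⟨u, v⟩ := b
      show sz (() :: u, v) ≤ sz (u, v) + _
      rw [sz_pair, sz_pair, sz_cons]
      have : sz () = 1 := rfl
      omega
    · rw [if_neg ha, sz_pair]
      have : sz ([] : List Unit) = 1 := rfl
      omega

/-! ### the languages -/

/-- the alternation with a prefix -/
def QP (O : Lang) : ℕ → ℕ → List Bool → List Bool → Prop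
  | 0, _, p, x => ¬ ∃ l' : List Bool, p.length + l'.length = x.length ∧
      O (CK.saddr x (p ++ l') true) = true
  | K + 1, m, p, x => ∃ a : List Bool, a.length = m ∧ ¬ QP O K m (p ++ a) x

theorem QP_alt (O : Lang) (m : ℕ) (x : List Bool) : ∀ (K : ℕ) (p : List Bool),
    QP O K m p x ↔ alt K m (fun a => ¬ ∃ l' : List Bool, (p ++ a).length + l'.length = x.length ∧
      O (CK.saddr x ((p ++ a) ++ l') true) = true) := by
  intro K
  induction K with
  | zero => intro p; simp only [QP, alt, List.append_nil]
  | succ K ih =>
    intro p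
    simp only [QP, alt]
    refine exists_congr fun a => and_congr_right fun _ => not_congr ?_
    rw [ih]
    simp only [List.append_assoc]

open Classical in
/-- the language for a reading function -/
noncomputable def QL (O : Lang) (K : ℕ) (r : List Bool → List Unit × List Bool × List Bool) :
    Lang := fun w => decide (QP O K (r w).1.length (r w).2.1 (r w).2.2)

theorem QL_iff (O : Lang) (K : ℕ) (r : List Bool → List Unit × List Bool × List Bool)
    (w : List Bool) : QL O K r w = true ↔ QP O K (r w).1.length (r w).2.1 (r w).2.2 := by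
  simp only [QL, decide_eq_true_eq]

theorem length_le_of_ptime {r : List Bool → α} (hr : PTime O r) :
    ∃ P : Polynomial ℕ, ∀ w, sz (r w) ≤ P.eval w.length := by
  obtain ⟨P, hP⟩ := hr.size_le
  refine ⟨P.comp (4 * Polynomial.X + 1), fun w => (hP w).trans ?_⟩
  rw [Polynomial.eval_comp]
  simp only [Polynomial.eval_add, Polynomial.eval_mul, Polynomial.eval_X, Polynomial.eval_ofNat,
    Polynomial.eval_one]
  exact poly_mono P (size_bits w)

theorem lens_le {u : List Unit} {p x : List Bool} :
    u.length ≤ sz (u, p, x) ∧ x.length ≤ sz (u, p, x) := by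
  rw [sz_pair, sz_pair]
  have h1 := length_le_sz u
  have h2 := length_le_sz x
  omega

/-- the first level -/
theorem QL_one {r : List Bool → List Unit × List Bool × List Bool} (hr : PTime O r) :
    InNP O (QL O 1 r) := by
  obtain ⟨P, hP⟩ := length_le_of_ptime hr
  have h1 : PTime O (fun q : List Bool × List Bool => (r q.1).1) := (hr.comp PTime.id.fst).fst
  have h2 : PTime O (fun q : List Bool × List Bool => (r q.1).2.1) :=
    (hr.comp PTime.id.fst).snd.fst
  have h3 : PTime O (fun q : List Bool × List Bool => (r q.1).2.2) :=
    (hr.comp PTime.id.fst).snd.snd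
  have h4 : PTime O (fun q : List Bool × List Bool => q.2) := PTime.id.snd
  refine inNP_of (V := fun q => (decide ((r q.1).1.length ≤ q.2.length) &&
    decide (((r q.1).2.1 ++ q.2).length = (r q.1).2.2.length)) &&
    O (CK.saddr (r q.1).2.2 ((r q.1).2.1 ++ q.2) true)) ?_ (B := fun n => P.eval n)
    (UPoly.poly P) ?_ ?_
  · exact ((PTime.nat_le h1.length h4.length).and
      (PTime.nat_eq (h2.append h4).length h3.length)).and
      (PTime.ask (PTime.saddr h3 (h2.append h4)))
  · intro w hw
    rw [QL_iff] at hw
    obtain ⟨a, ha, hw⟩ := hw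
    simp only [QP, not_not] at hw
    obtain ⟨l', hl', hO⟩ := hw
    refine ⟨a ++ l', ?_, ?_⟩
    · have h5 := (lens_le (u := (r w).1) (p := (r w).2.1) (x := (r w).2.2)).2
      have h6 := hP w
      rw [List.length_append] at hl' ⊢
      have h7 : sz (r w) = sz ((r w).1, (r w).2.1, (r w).2.2) := rfl
      omega
    · rw [List.length_append] at hl'
      simp only [Bool.and_eq_true, decide_eq_true_eq, List.length_append]
      refine ⟨⟨by omega, by omega⟩, ?_⟩
      rw [← List.append_assoc]
      exact hO
  · intro w y hy
    simp only [Bool.and_eq_true, decide_eq_true_eq, List.length_append] at hy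
    obtain ⟨⟨ha, hb⟩, hc⟩ := hy
    rw [QL_iff]
    refine ⟨y.take (r w).1.length, by rw [List.length_take]; omega, ?_⟩
    simp only [QP, not_not]
    refine ⟨y.drop (r w).1.length, ?_, ?_⟩
    · rw [List.length_append, List.length_take, List.length_drop]; omega
    · rw [List.append_assoc, List.take_append_drop]
      exact hc

/-- the higher levels -/
theorem QL_succ {K : ℕ} {r : List Bool → List Unit × List Bool × List Bool} (hr : PTime O r) :
    InNP (join O (QL O K rd)) (QL O (K + 1) r) := by
  obtain ⟨P, hP⟩ := length_le_of_ptime hr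
  have hr' : PTime (join O (QL O K rd)) r := hr.lift
  have h1 : PTime (join O (QL O K rd)) (fun q : List Bool × List Bool => (r q.1).1) :=
    (hr'.comp PTime.id.fst).fst
  have h2 : PTime (join O (QL O K rd)) (fun q : List Bool × List Bool => (r q.1).2.1) :=
    (hr'.comp PTime.id.fst).snd.fst
  have h3 : PTime (join O (QL O K rd)) (fun q : List Bool × List Bool => (r q.1).2.2) :=
    (hr'.comp PTime.id.fst).snd.snd
  have h4 : PTime (join O (QL O K rd)) (fun q : List Bool × List Bool => q.2) := PTime.id.snd
  refine inNP_of (V := fun q => decide ((r q.1).1.length = q.2.length) &&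
    !(QL O K rd (PHS.wr ((r q.1).1, (r q.1).2.1 ++ q.2, (r q.1).2.2)))) ?_
    (B := fun n => P.eval n) (UPoly.poly P) ?_ ?_
  · exact (PTime.nat_eq h1.length h4.length).and
      (PTime.askR (PTime.wr (h1.pair ((h2.append h4).pair h3)))).not
  · intro w hw
    rw [QL_iff] at hw
    obtain ⟨a, ha, hw⟩ := hw
    refine ⟨a, ?_, ?_⟩
    · have h5 := (lens_le (u := (r w).1) (p := (r w).2.1) (x := (r w).2.2)).1
      have h6 := hP w
      have h7 : sz (r w) = sz ((r w).1, (r w).2.1, (r w).2.2) := rfl
      omega
    · simp only [Bool.and_eq_true, decide_eq_true_eq, Bool.not_eq_true']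
      refine ⟨ha.symm, ?_⟩
      rw [← Bool.not_eq_true, QL_iff, rd_wr]
      exact hw
  · intro w y hy
    simp only [Bool.and_eq_true, decide_eq_true_eq, Bool.not_eq_true'] at hy
    obtain ⟨ha, hb⟩ := hy
    rw [← Bool.not_eq_true, QL_iff, rd_wr] at hb
    rw [QL_iff]
    exact ⟨y, ha.symm, hb⟩

theorem inP_false (O : Lang) : InP O (fun _ => false) := inP_of (PTime.const false)

theorem InNP.lift {B L : Lang} (h : InNP O L) : InNP (join O B) L := by
  obtain ⟨g, hg, h'⟩ := UK_hard h
  have h1 : PTime (join O B) (fun q : List Bool × List Bool => CKP.VU O (g q.1, q.2)) :=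
    (PTime.VU (hg.comp PTime.id.fst) PTime.id.snd).lift
  obtain ⟨P, hP⟩ := length_le_of_ptime hg
  refine inNP_of (V := fun q => CKP.VU O (g q.1, q.2)) h1 (B := fun n => P.eval n)
    (UPoly.poly P) ?_ ?_
  · intro x hx
    rw [h', UK_iff] at hx
    obtain ⟨y, hy, hV⟩ := hx
    refine ⟨y, ?_, hV⟩
    have h2 := length_le_sz (g x)
    have h3 := hP x
    omega
  · intro x y hV
    rw [h']
    exact UK_of_VU hV

theorem QL_sig (K : ℕ) : ∀ {r : List Bool → List Unit × List Bool × List Bool}, PTime O r →
    InSig O (K + 1) (QL O (K + 1) r) := by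
  induction K with
  | zero => intro r hr; exact ⟨_, inP_false O, InNP.lift (QL_one hr)⟩
  | succ K ih => intro r hr; exact ⟨_, ih rd_ptime, QL_succ hr⟩

/-- UP: the alternating search problems are in the polynomial hierarchy. -/
theorem up (K : ℕ) : ∃ Q : Lang → Lang, (∀ O, InSig O (K + 1) (Q O)) ∧
    ∀ (O : Lang) (m : ℕ) (x : List Bool), Q O (ones m ++ false :: x) = true ↔
      alt (K + 1) m (fun a => ¬ ∃ l' : List Bool, a.length + l'.length = x.length ∧
        O (CK.saddr x (a ++ l') true) = true) := by
  refine ⟨fun O => QL O (K + 1) (fun w => ((prs w).1, [], (prs w).2)), fun O => ?_, ?_⟩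
  · apply QL_sig
    have h : PTime O prs := prs_ptime
    exact h.fst.pair ((PTime.const ([] : List Bool)).pair h.snd)
  · intro O m x
    rw [QL_iff, prs_ones, QP_alt]
    simp only [List.length_replicate, List.nil_append]

/-! ### closure properties of the hierarchy -/

theorem InP.InNP {L : Lang} (h : InP O L) : InNP O L := by
  obtain ⟨c, k, h⟩ := h
  have h1 : PTime O (fun q : List Bool × List Bool =>
      accU O (cmdD c) q.1 [] (List.replicate ((q.1.length + 2) ^ k) ())) :=
    PTime.accU (PTime.const (cmdD c)) PTime.id.fst (PTime.const [])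
      ((UPoly.tb k).comp (PTime.id.fst (α := List Bool × List Bool)))
  refine inNP_of (V := _) h1 (B := fun _ => 0) (UPoly.const 0) ?_ ?_
  · intro x hx
    refine ⟨[], le_rfl, ?_⟩
    have h2 := ((h x).2).2 hx
    simp only
    rw [accU_iff, List.length_replicate]
    exact h2
  · intro x y hV
    simp only at hV
    rw [accU_iff, List.length_replicate] at hV
    exact ((h x).2).1 hV

theorem InSig.succ : ∀ (k : ℕ) {L : Lang}, InSig O k L → InSig O (k + 1) L := by
  intro k
  induction k with
  | zero =>
    intro L h
    exact ⟨_, inP_false O, InNP.lift (PHS.InP.InNP h)⟩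
  | succ k ih =>
    intro L h
    obtain ⟨B, hB, hL⟩ := h
    exact ⟨B, ih hB, hL⟩

end Pool.Agent.PHS
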