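import Pool.Agent.Lib_helper74.PHS.BR
import Pool.Agent.Lib_helper74.PHS.UP

/-!
# The diagonalization step for the polynomial hierarchy (MP_675993_lc)
-/

set_option autoImplicit false

namespace Pool.Agent.PHS

open Pool.Agent.CK

/-- The depth hierarchy theorem for circuits of quasi-polynomial size. -/
def DepthHierarchy : Prop :=
  ∀ k c : ℕ, ∃ m0 : ℕ, ∀ m ≥ m0, ∀ (A : Type) [Fintype A] [DecidableEq A],
    Fintype.card A = 2 ^ m → ∀ F : (List A → Bool) → Bool, Lev (m ^ c) k F →
      ∃ v : List A → Bool, ¬ (F v = true ↔ Sip (k + 1) v)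

/-- the string of a list of blocks -/
def flat {m : ℕ} (l : List (X m)) : List Bool := (l.map Subtype.val).flatten

theorem flat_cons {m : ℕ} (a : X m) (l : List (X m)) : flat (a :: l) = a.1 ++ flat l := rfl

theorem length_flat {m : ℕ} (l : List (X m)) : (flat l).length = l.length * m := by
  induction l with
  | nil => simp [flat]
  | cons a l ih => rw [flat_cons, List.length_append, ih, a.2, List.length_cons]; ring

theorem flat_inj {m : ℕ} : ∀ {l l' : List (X m)}, l.length = l'.length → flat l = flat l' →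
    l = l' := by
  intro l
  induction l with
  | nil => intro l' h _; exact (List.length_eq_zero_iff.1 h.symm).symm
  | cons a l ih =>
    intro l' h h2
    cases l' with
    | nil => simp at h
    | cons b l' =>
      rw [flat_cons, flat_cons] at h2
      obtain ⟨h3, h4⟩ := List.append_inj h2 (by rw [a.2, b.2])
      rw [Subtype.ext h3, ih (by simpa using h) h4]

theorem alt_Sip {m : ℕ} : ∀ (K : ℕ) (f : List Bool → Prop) (v : List (X m) → Bool),
    (∀ l : List (X m), l.length = K → (v l = true ↔ f (flat l))) → (alt K m f ↔ Sip K v) := by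
  intro K
  induction K with
  | zero =>
    intro f v h
    exact (h [] rfl).symm
  | succ K ih =>
    intro f v h
    have h2 : ∀ a : X m, alt K m (fun l => f (a.1 ++ l)) ↔ Sip K (fun l => v (a :: l)) :=
      fun a => ih _ _ fun l hl => h (a :: l) (by rw [List.length_cons, hl])
    constructor
    · rintro ⟨a, ha, h3⟩
      exact ⟨⟨a, ha⟩, fun h4 => h3 ((h2 ⟨a, ha⟩).2 h4)⟩
    · rintro ⟨a, h3⟩
      exact ⟨a.1, a.2, fun h4 => h3 ((h2 a).1 h4)⟩

theorem exists_fintype_X (m : ℕ) : ∃ i : Fintype (X m), @Fintype.card (X m) i = 2 ^ m := by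
  refine ⟨inferInstanceAs (Fintype (List.Vector Bool m)), ?_⟩
  have h := card_vector (α := Bool) m
  rw [Fintype.card_bool] at h
  exact h

/-- Languages of the level `k` only depend on short positions of the oracle. -/
theorem SL_congr (k : ℕ) : ∀ s : List ℕ, ∃ E : ℕ, ∀ (O O' : Lang) (x : List Bool),
    (∀ w : List Bool, w.length < (x.length + 2) ^ E → O w = O' w) →
      SL k s O x = SL k s O' x := by
  induction k with
  | zero =>
    intro s
    set i := s.headD 0 with hi
    refine ⟨ex i + 3, fun O O' x h => ?_⟩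
    change PL (s.headD 0) O x = PL (s.headD 0) O' x
    rw [← hi, ← eval_PT, ← eval_PT]
    refine DT.eval_congr _ _ (allQ_PT i x) fun w hw => h w ?_
    set n := x.length + 2 with hn
    have hn2 : 2 ≤ n := by omega
    have e1 : n ^ (ex i + 3) = n ^ ex i * n * n * n := by ring
    have p1 : 1 ≤ n ^ ex i := Nat.one_le_pow _ _ (by omega)
    have p2 : n ≤ n ^ ex i * n := Nat.le_mul_of_pos_left _ (by omega)
    have p3 : n ^ ex i ≤ n ^ ex i * n := Nat.le_mul_of_pos_right _ (by omega)
    have p4 : 2 * (n ^ ex i * n) ≤ n ^ ex i * n * n := by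
      rw [Nat.mul_comm]; exact Nat.mul_le_mul_left _ hn2
    have p5 : 2 * (n ^ ex i * n * n) ≤ n ^ ex i * n * n * n := by
      rw [Nat.mul_comm]; exact Nat.mul_le_mul_left _ hn2
    change w.length ≤ x.length + n ^ ex i at hw
    omega
  | succ k ih =>
    intro s
    obtain ⟨E', hE'⟩ := ih s.tail
    set i := s.headD 0 with hi
    refine ⟨(i + 2) * (E' + 1), fun O O' x h => ?_⟩
    change NL (s.headD 0) _ x = NL (s.headD 0) _ x
    rw [← hi]
    set n := x.length + 2 with hn
    have hn2 : 2 ≤ n := by omega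
    apply NL_congr
    intro w hw
    have hw : w.length < n ^ (i + 2) := hw
    have h1 : n ^ (i + 2) ≤ n ^ ((i + 2) * (E' + 1)) :=
      Nat.pow_le_pow_right (by omega) (Nat.le_mul_of_pos_right _ (by omega))
    rcases w with _ | ⟨b, w⟩
    · rfl
    · rw [List.length_cons] at hw
      cases b with
      | false => exact h w (by omega)
      | true =>
        refine hE' O O' w fun w' hw' => h w' (lt_of_lt_of_le hw' ?_)
        calc (w.length + 2) ^ E' ≤ (n ^ (i + 2)) ^ E' := Nat.pow_le_pow_left (by omega) _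
          _ ≤ (n ^ (i + 2)) ^ (E' + 1) := Nat.pow_le_pow_right (by omega) (by omega)
          _ = n ^ ((i + 2) * (E' + 1)) := (pow_mul _ _ _).symm

/-- The diagonalization step: in a family of oracles that realizes all functions on the lists of
`2k + 1` blocks in a free slot `x`, the language of level `k` makes an error. -/
theorem kill (dh : DepthHierarchy) (k : ℕ) (s : List ℕ) : ∃ C m0 : ℕ, ∀ m ≥ m0,
    ∀ x : List Bool, x.length ≤ m ^ 2 → ∀ F : (List (X m) → Bool) → Lang,
    (∀ w : List Bool, w.length < m ^ C → CertC (m ^ C) (fun v => F v w)) →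
    (∀ (v : List (X m) → Bool) (l : List (X m)), l.length = 2 * k + 1 →
      (v l = true ↔ ¬ ∃ l' : List Bool, (flat l).length + l'.length = x.length ∧
        F v (saddr x (flat l ++ l') true) = true)) →
    ∃ v : List (X m) → Bool, ¬ (SL k s (F v) (ones m ++ false :: x) = true ↔
      alt (2 * k + 1) m (fun a => ¬ ∃ l' : List Bool, a.length + l'.length = x.length ∧
        F v (saddr x (a ++ l') true) = true)) := by
  obtain ⟨E, hE⟩ := br k s
  obtain ⟨m0, hm0⟩ := dh (2 * k) (4 * E * 2)
  refine ⟨4 * E, max m0 2, fun m hm x hx F hF hreal => ?_⟩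
  have hm1 : m0 ≤ m := (le_max_left _ _).trans hm
  have hm2 : 2 ≤ m := (le_max_right _ _).trans hm
  have hlev := hE (List (X m)) F (m ^ (4 * E)) hF (ones m ++ false :: x) (by
    have h1 : (ones m ++ false :: x).length + 2 ≤ m ^ 4 := by
      rw [List.length_append, List.length_cons]
      have h2 : (ones m).length = m := List.length_replicate ..
      rw [h2]
      have h3 : m ≤ m ^ 2 := by nlinarith
      have h4 : 4 ≤ m ^ 2 := by nlinarith
      have h5 : m ^ 4 = m ^ 2 * m ^ 2 := by ring
      have h6 : 4 * m ^ 2 ≤ m ^ 2 * m ^ 2 := Nat.mul_le_mul_right _ h4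
      omega
    rw [pow_mul]
    exact Nat.pow_le_pow_left h1 _)
  rw [← pow_mul] at hlev
  obtain ⟨i, hi⟩ := exists_fintype_X m
  obtain ⟨v, hv⟩ := hm0 m hm1 (X m) hi _ hlev
  refine ⟨v, fun h => hv (h.trans ?_)⟩
  exact alt_Sip (2 * k + 1) _ v (hreal v)

theorem ph_infinite (O : Lang)
    (h : ∀ k : ℕ, ∃ L, InSig O (2 * k + 1) L ∧ ∀ s : List ℕ, SL k s O ≠ L) :
    ∀ k : ℕ, ∃ L, InSig O (k + 1) L ∧ ¬ InSig O k L := by
  intro k
  by_contra hcon
  push Not at hcon
  obtain ⟨L, hL, hs⟩ := h k
  have h1 : InSig O (k + (k + 1)) L := by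
    have : k + (k + 1) = 2 * k + 1 := by ring
    rw [this]; exact hL
  obtain ⟨s, hs'⟩ := exists_SL O k L (sig_collapse O k hcon (k + 1) L h1)
  exact hs s hs'

end Pool.Agent.PHS
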