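import Pool.Agent.Lib_helper64.NPC.Fam
import Pool.Agent.Lib_helper74.PHS.Glue

/-!
# One free slot as a vector of bits (MP_675993_lc)
-/

set_option autoImplicit false

namespace Pool.Agent.NPC

open Pool.Agent.CK Pool.Agent.PHS

open Classical in
/-- the state of the slot `x` for the vector `v`; all other slots are empty -/
noncomputable def phst (x : List Bool) (K m : ℕ) (lab : List Bool → List Bool)
    (v : List (X m) → Bool) : St := fun p =>
  decide (p.1 = x ∧ ∃ κ : List (X m), κ.length = K ∧ lab (flat κ) = p.2 ∧ v κ = false)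

theorem phst_iff (x : List Bool) (K m : ℕ) (lab : List Bool → List Bool)
    (v : List (X m) → Bool) (p : Lit) : phst x K m lab v p = true ↔
      p.1 = x ∧ ∃ κ : List (X m), κ.length = K ∧ lab (flat κ) = p.2 ∧ v κ = false := by
  unfold phst
  simp only [decide_eq_true_eq]

/-- labels for the blocks -/
def LabOK {L : ℕ} (A : Fam L) (x : List Bool) (K m : ℕ) (lab : List Bool → List Bool) : Prop :=
  ∀ κ : List (X m), κ.length = K → lab (flat κ) ∈ A.H x ∧ (lab (flat κ)).take (K * m) = flat κ

theorem LabOK.inj {L : ℕ} {A : Fam L} {x : List Bool} {K m : ℕ} {lab : List Bool → List Bool}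
    (h : LabOK A x K m lab) {κ κ' : List (X m)} (hκ : κ.length = K) (hκ' : κ'.length = K)
    (he : lab (flat κ) = lab (flat κ')) : κ = κ' := by
  apply flat_inj (hκ.trans hκ'.symm)
  rw [← (h κ hκ).2, ← (h κ' hκ').2, he]

theorem exists_lab {L : ℕ} (A : Fam L) (x : List Bool) (K m : ℕ) (hx : x.length / 4 = K * m)
    (h : ∀ κ : List Bool, κ.length = x.length / 4 → (cl x.length κ (A.H x)).Nonempty) :
    ∃ lab, LabOK A x K m lab := by
  classical
  have h2 : ∀ κ : List Bool, ∃ l : List Bool, κ.length = K * m → l ∈ A.H x ∧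
      l.take (K * m) = κ := by
    intro κ
    by_cases hκ : κ.length = K * m
    · obtain ⟨l, hl⟩ := h κ (hκ.trans hx.symm)
      unfold cl at hl
      rw [Finset.mem_filter, hx] at hl
      exact ⟨l, fun _ => hl⟩
    · exact ⟨[], fun h => absurd h hκ⟩
  choose lab hlab using h2
  refine ⟨lab, fun κ hκ => hlab (flat κ) ?_⟩
  rw [length_flat, hκ]

/-- Locality in terms of the vector. -/
theorem certC_phst {L : ℕ} (A : Fam L) (x : List Bool) (K m : ℕ) (lab : List Bool → List Bool)
    (hlab : LabOK A x K m lab) (w : List Bool) (hw : key w < L) :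
    CertC w.length (fun v : List (X m) → Bool => A.F (phst x K m lab v) w) := by
  classical
  intro v
  obtain ⟨T, -, hT2, hT3⟩ := A.cert (phst x K m lab v) w hw
  have hun : ∃ un : List Bool → List (X m), ∀ κ : List (X m), κ.length = K →
      un (lab (flat κ)) = κ := by
    refine ⟨fun l => if h : ∃ κ : List (X m), κ.length = K ∧ lab (flat κ) = l then h.choose
      else [], fun κ hκ => ?_⟩
    have h : ∃ κ' : List (X m), κ'.length = K ∧ lab (flat κ') = lab (flat κ) := ⟨κ, hκ, rfl⟩
    simp only [dif_pos h]
    exact hlab.inj h.choose_spec.1 hκ h.choose_spec.2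
  obtain ⟨un, hun⟩ := hun
  refine ⟨T.image (fun p => un p.2), ?_, ?_⟩
  · refine Finset.card_image_le.trans (le_trans ?_ hT2)
    unfold tw
    rw [Finset.card_eq_sum_ones]
    exact Finset.sum_le_sum fun p _ => by unfold lw; omega
  · intro v' hv'
    apply hT3
    intro p hp
    have key : ∀ κ : List (X m), κ.length = K → lab (flat κ) = p.2 → v' κ = v κ := by
      intro κ hκ he
      apply hv'
      rw [Finset.mem_image]
      exact ⟨p, hp, by rw [← he, hun κ hκ]⟩
    rw [Bool.eq_iff_iff, phst_iff, phst_iff]
    refine and_congr_right fun _ => exists_congr fun κ => ?_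
    constructor
    · rintro ⟨h1, h2, h3⟩
      exact ⟨h1, h2, by rw [← key κ h1 h2]; exact h3⟩
    · rintro ⟨h1, h2, h3⟩
      exact ⟨h1, h2, by rw [key κ h1 h2]; exact h3⟩

/-- The vector is read from the oracle. -/
theorem read_phst {L : ℕ} (A : Fam L) (x : List Bool) (hx : x ∈ A.R) (K m : ℕ)
    (lab : List Bool → List Bool) (hlab : LabOK A x K m lab) (v : List (X m) → Bool)
    (l : List (X m)) (hl : l.length = K) :
    v l = true ↔ ¬ ∃ l' : List Bool, (flat l).length + l'.length = x.length ∧
      A.F (phst x K m lab v) (saddr x (flat l ++ l') true) = true := by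
  have hfl : (flat l).length = K * m := by rw [length_flat, hl]
  constructor
  · rintro hv ⟨l', h1, h2⟩
    rw [A.free x hx _ (by rw [List.length_append]; exact h1), Bool.and_eq_true, phst_iff] at h2
    obtain ⟨-, -, κ, hκ, he, hvκ⟩ := h2
    have h3 : flat κ = flat l := by
      rw [← (hlab κ hκ).2, he]
      simp only
      rw [← hfl, List.take_left]
    have h4 : κ = l := flat_inj (hκ.trans hl.symm) h3
    rw [h4, hv] at hvκ
    exact Bool.noConfusion hvκ
  · intro h
    by_contra hv
    rw [Bool.not_eq_true] at hv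
    apply h
    obtain ⟨h1, h2⟩ := hlab l hl
    have h3 : flat l ++ (lab (flat l)).drop (K * m) = lab (flat l) := by
      have h5 := List.take_append_drop (K * m) (lab (flat l))
      rw [h2] at h5
      exact h5
    have h4 : (lab (flat l)).length = x.length := A.hH x _ h1
    refine ⟨(lab (flat l)).drop (K * m), ?_, ?_⟩
    · rw [← List.length_append, h3, h4]
    · rw [h3, A.free x hx _ h4, Bool.and_eq_true, phst_iff]
      exact ⟨decide_eq_true h1, rfl, l, hl, rfl, hv⟩

end Pool.Agent.NPC
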