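import Pool.Agent.Lib_helper74.PHS.Defs

/-!
# From machines of the polynomial hierarchy to circuits of constant depth (MP_675993_lc)
-/

set_option autoImplicit false

namespace Pool.Agent.PHS

open Pool.Agent.CK

section lev

variable {ι : Type}

theorem CertC.mono {s t : ℕ} {F : (ι → Bool) → Bool} (h : CertC s F) (hst : s ≤ t) : CertC t F :=
  fun v => by
    obtain ⟨T, hT, h2⟩ := h v
    exact ⟨T, hT.trans hst, h2⟩

theorem CertC.not {t : ℕ} {F : (ι → Bool) → Bool} (h : CertC t F) : CertC t (fun v => !F v) :=
  fun v => by
    obtain ⟨T, hT, h2⟩ := h v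
    exact ⟨T, hT, fun v' hv' => by simp only [h2 v' hv']⟩

theorem CertC.const (t : ℕ) (b : Bool) : CertC t (fun _ : ι → Bool => b) :=
  fun _ => ⟨∅, Nat.zero_le _, fun _ _ => rfl⟩

theorem Lev.not {t : ℕ} : ∀ {k : ℕ} {F : (ι → Bool) → Bool}, Lev t k F →
    Lev t k (fun v => !F v) := by
  intro k
  induction k with
  | zero => intro F h; exact CertC.not h
  | succ k ih =>
    intro F h
    obtain ⟨s, g, hs, hg, h⟩ := h
    refine ⟨s, fun i v => !g i v, hs, fun i => ih (hg i), ?_⟩
    rcases h with h | h
    · right
      intro v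
      have := h v
      rw [Bool.not_eq_true', ← Bool.not_eq_true, this]
      push Not
      exact forall_congr' fun i => by simp
    · left
      intro v
      have := h v
      rw [Bool.not_eq_true', ← Bool.not_eq_true, this]
      push Not
      exact exists_congr fun i => by simp

theorem Lev.succ {t : ℕ} {k : ℕ} {F : (ι → Bool) → Bool} (h : Lev t k F) : Lev t (k + 1) F :=
  ⟨1, fun _ => F, Nat.one_le_two_pow, fun _ => h, Or.inl fun v => by simp⟩

theorem Lev.le {t : ℕ} {j k : ℕ} {F : (ι → Bool) → Bool} (h : Lev t j F) (hjk : j ≤ k) :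
    Lev t k F := by
  obtain ⟨d, rfl⟩ := Nat.exists_eq_add_of_le hjk
  induction d with
  | zero => exact h
  | succ d ih => exact Lev.succ (ih (Nat.le_add_right _ _))

theorem Lev.mono {s t : ℕ} (hst : s ≤ t) : ∀ {k : ℕ} {F : (ι → Bool) → Bool}, Lev s k F →
    Lev t k F := by
  intro k
  induction k with
  | zero => intro F h; exact CertC.mono h hst
  | succ k ih =>
    intro F h
    obtain ⟨n, g, hn, hg, h⟩ := h
    exact ⟨n, g, hn.trans (Nat.pow_le_pow_right (by norm_num) hst), fun i => ih (hg i), h⟩

theorem Lev.any {α : Type} {t k : ℕ} (l : List α) (hl : l.length ≤ 2 ^ t)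
    (G : α → (ι → Bool) → Bool) (hG : ∀ a ∈ l, Lev t k (G a)) {F : (ι → Bool) → Bool}
    (hF : ∀ v, F v = true ↔ ∃ a ∈ l, G a v = true) : Lev t (k + 1) F := by
  refine ⟨l.length, fun i => G (l.get i), hl, fun i => hG _ (List.get_mem l i), Or.inl ?_⟩
  intro v
  rw [hF v]
  constructor
  · rintro ⟨a, ha, h⟩
    obtain ⟨i, hi⟩ := List.get_of_mem ha
    exact ⟨i, by change G (l.get i) v = true; rw [hi]; exact h⟩
  · rintro ⟨i, h⟩
    exact ⟨_, List.get_mem l i, h⟩

theorem Lev.all {α : Type} {t k : ℕ} (l : List α) (hl : l.length ≤ 2 ^ t)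
    (G : α → (ι → Bool) → Bool) (hG : ∀ a ∈ l, Lev t k (G a)) {F : (ι → Bool) → Bool}
    (hF : ∀ v, F v = true ↔ ∀ a ∈ l, G a v = true) : Lev t (k + 1) F := by
  refine ⟨l.length, fun i => G (l.get i), hl, fun i => hG _ (List.get_mem l i), Or.inr ?_⟩
  intro v
  rw [hF v]
  constructor
  · intro h i
    exact h _ (List.get_mem l i)
  · intro h a ha
    obtain ⟨i, hi⟩ := List.get_of_mem ha
    have := h i
    change G (l.get i) v = true at this
    rw [hi] at this
    exact this

end lev

section dt

variable {ι : Type}

theorem br_cert_eval {β : Type} [DecidableEq β] (F : (ι → Bool) → Lang) (R : ℕ) (t : DT β)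
    (h : t.AllQ (fun w => CertC R (fun v => F v w))) (v : ι → Bool) :
    ∃ T : Finset ι, T.card ≤ t.depth * R ∧
      ∀ v' : ι → Bool, (∀ x ∈ T, v' x = v x) → t.eval (F v') = t.eval (F v) := by
  classical
  induction t with
  | leaf b => exact ⟨∅, Nat.zero_le _, fun _ _ => rfl⟩
  | node w n0 n1 h0 h1 =>
    obtain ⟨hw, a0, a1⟩ := h
    obtain ⟨T, hT, h2⟩ := hw v
    obtain ⟨T0, hT0, h20⟩ := h0 a0
    obtain ⟨T1, hT1, h21⟩ := h1 a1
    by_cases hv : F v w = true
    · refine ⟨T ∪ T1, ?_, ?_⟩
      · refine (Finset.card_union_le _ _).trans ?_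
        rw [DT.depth_node]
        have : n1.depth * R ≤ max n0.depth n1.depth * R := Nat.mul_le_mul_right _ (le_max_right _ _)
        rw [Nat.add_mul, one_mul]
        omega
      · intro v' hv'
        have e1 : F v' w = F v w := h2 v' (fun x hx => hv' x (Finset.mem_union_left _ hx))
        rw [DT.eval_node, DT.eval_node, e1, if_pos hv, if_pos hv]
        exact h21 v' (fun x hx => hv' x (Finset.mem_union_right _ hx))
    · refine ⟨T ∪ T0, ?_, ?_⟩
      · refine (Finset.card_union_le _ _).trans ?_
        rw [DT.depth_node]
        have : n0.depth * R ≤ max n0.depth n1.depth * R := Nat.mul_le_mul_right _ (le_max_left _ _)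
        rw [Nat.add_mul, one_mul]
        omega
      · intro v' hv'
        have e1 : F v' w = F v w := h2 v' (fun x hx => hv' x (Finset.mem_union_left _ hx))
        rw [DT.eval_node, DT.eval_node, e1, if_neg hv, if_neg hv]
        exact h20 v' (fun x hx => hv' x (Finset.mem_union_right _ hx))

/-- the accepting branches of a decision tree -/
def branches : DT Bool → List (List (List Bool × Bool))
  | DT.leaf b => if b = true then [[]] else []
  | DT.node w n0 n1 => (branches n0).map (fun l => (w, false) :: l) ++
      (branches n1).map (fun l => (w, true) :: l)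

theorem eval_branches (O : Lang) (t : DT Bool) :
    t.eval O = true ↔ ∃ l ∈ branches t, ∀ p ∈ l, O p.1 = p.2 := by
  induction t with
  | leaf b =>
    cases b <;> simp [branches]
  | node w n0 n1 h0 h1 =>
    rw [DT.eval_node, branches]
    constructor
    · intro h
      by_cases hw : O w = true
      · rw [if_pos hw] at h
        obtain ⟨l, hl, h2⟩ := h1.1 h
        refine ⟨(w, true) :: l, List.mem_append_right _ (List.mem_map_of_mem hl), ?_⟩
        intro p hp
        rcases List.mem_cons.1 hp with rfl | hp
        · exact hw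
        · exact h2 p hp
      · rw [if_neg hw] at h
        obtain ⟨l, hl, h2⟩ := h0.1 h
        refine ⟨(w, false) :: l, List.mem_append_left _ (List.mem_map_of_mem hl), ?_⟩
        intro p hp
        rcases List.mem_cons.1 hp with rfl | hp
        · simpa using hw
        · exact h2 p hp
    · rintro ⟨l, hl, h2⟩
      rcases List.mem_append.1 hl with hl | hl
      · obtain ⟨l', hl', rfl⟩ := List.mem_map.1 hl
        have hw : O w = false := h2 (w, false) List.mem_cons_self
        rw [if_neg (by rw [hw]; exact Bool.false_ne_true)]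
        exact h0.2 ⟨l', hl', fun p hp => h2 p (List.mem_cons_of_mem _ hp)⟩
      · obtain ⟨l', hl', rfl⟩ := List.mem_map.1 hl
        have hw : O w = true := h2 (w, true) List.mem_cons_self
        rw [if_pos hw]
        exact h1.2 ⟨l', hl', fun p hp => h2 p (List.mem_cons_of_mem _ hp)⟩

theorem length_branches (t : DT Bool) : (branches t).length ≤ 2 ^ t.depth := by
  induction t with
  | leaf b => cases b <;> simp [branches]
  | node w n0 n1 h0 h1 =>
    rw [branches, List.length_append, List.length_map, List.length_map, DT.depth_node, pow_succ]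
    have e0 : 2 ^ n0.depth ≤ 2 ^ max n0.depth n1.depth :=
      Nat.pow_le_pow_right (by norm_num) (le_max_left _ _)
    have e1 : 2 ^ n1.depth ≤ 2 ^ max n0.depth n1.depth :=
      Nat.pow_le_pow_right (by norm_num) (le_max_right _ _)
    omega

theorem branches_mem (t : DT Bool) (P : List Bool → Prop) (h : t.AllQ P) :
    ∀ l ∈ branches t, l.length ≤ t.depth ∧ ∀ p ∈ l, P p.1 := by
  induction t with
  | leaf b =>
    intro l hl
    cases b with
    | false => simp [branches] at hl
    | true =>
      simp only [branches, if_true, List.mem_singleton] at hl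
      subst hl
      exact ⟨Nat.zero_le _, fun p hp => by simp at hp⟩
  | node w n0 n1 h0 h1 =>
    intro l hl
    rw [DT.depth_node]
    rcases List.mem_append.1 hl with hl | hl
    · obtain ⟨l', hl', rfl⟩ := List.mem_map.1 hl
      obtain ⟨a, b⟩ := h0 h.2.1 l' hl'
      refine ⟨?_, ?_⟩
      · rw [List.length_cons]
        have := le_max_left n0.depth n1.depth
        omega
      · intro p hp
        rcases List.mem_cons.1 hp with rfl | hp
        · exact h.1
        · exact b p hp
    · obtain ⟨l', hl', rfl⟩ := List.mem_map.1 hl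
      obtain ⟨a, b⟩ := h1 h.2.2 l' hl'
      refine ⟨?_, ?_⟩
      · rw [List.length_cons]
        have := le_max_right n0.depth n1.depth
        omega
      · intro p hp
        rcases List.mem_cons.1 hp with rfl | hp
        · exact h.1
        · exact b p hp

/-- the strings of length at most `T` -/
def strs : ℕ → List (List Bool)
  | 0 => [[]]
  | T + 1 => [] :: ((strs T).map (fun l => false :: l) ++ (strs T).map (fun l => true :: l))

theorem length_strs (T : ℕ) : (strs T).length + 1 = 2 ^ (T + 1) := by
  induction T with
  | zero => rfl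
  | succ T ih =>
    rw [strs, List.length_cons, List.length_append, List.length_map, List.length_map, pow_succ]
    omega

theorem mem_strs (T : ℕ) : ∀ y : List Bool, y ∈ strs T ↔ y.length ≤ T := by
  induction T with
  | zero => intro y; simp [strs]
  | succ T ih =>
    intro y
    rw [strs, List.mem_cons, List.mem_append, List.mem_map, List.mem_map]
    cases y with
    | nil => simp
    | cons b y =>
      rw [List.length_cons, Nat.add_le_add_iff_right, ← ih y]
      cases b <;> simp

end dt

/-- the accepting computation as a decision tree -/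
def accT (c : Cmd) (x y : List Bool) (t : ℕ) : DT Bool :=
  (runTree t ([c], init x y)).map fun cf => cf.1.isEmpty && ((cf.2 0).head? == some true)

theorem eval_accT (O : Lang) (c : Cmd) (x y : List Bool) (t : ℕ) :
    (accT c x y t).eval O = accB O c x y t := by
  rw [accT, DT.eval_map, mach_eval_runTree]
  rfl

theorem depth_accT (c : Cmd) (x y : List Bool) (t : ℕ) : (accT c x y t).depth ≤ t := by
  rw [accT, DT.depth_map]
  exact mach_depth_runTree _ _

theorem allQ_accT (c : Cmd) (x y : List Bool) (t : ℕ) (h : y.length ≤ t) :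
    (accT c x y t).AllQ (fun w => w.length < x.length + 2 * t + 1) := by
  rw [accT]
  apply mach_allQ_map
  refine (mach_allQ_runTree _ _ (x.length + t) (x.length + 2 * t)
    (mach_init_len x y (x.length + t) (by omega) (by omega)) (by omega)).mono ?_
  intro w hw
  change w.length < _ at hw
  omega

theorem NL_iff (i : ℕ) (O : Lang) (x : List Bool) : NL i O x = true ↔
    ∃ y : List Bool, y.length ≤ (x.length + 2) ^ ex i ∧
      accB O (prog i) x y ((x.length + 2) ^ ex i) = true := by
  unfold NL
  simp only [decide_eq_true_eq]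

/-- BR: languages of the level `k` of the hierarchy, relative to local oracles, are computed by
circuits of constant depth. -/
theorem br (k : ℕ) : ∀ s : List ℕ, ∃ E : ℕ, ∀ (ι : Type) (F : (ι → Bool) → Lang) (R : ℕ),
    (∀ w : List Bool, w.length < R → CertC R (fun v => F v w)) →
    ∀ x : List Bool, (x.length + 2) ^ E ≤ R → Lev (R ^ 2) (2 * k) (fun v => SL k s (F v) x) := by
  induction k with
  | zero =>
    intro s
    refine ⟨ex (s.headD 0) + 3, ?_⟩
    intro ι F R hF x hx
    set n := x.length + 2 with hn
    set i := s.headD 0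
    have hn2 : 2 ≤ n := by omega
    have e1 : n ^ (ex i + 3) = n ^ ex i * n * n * n := by ring
    have p1 : 1 ≤ n ^ ex i := Nat.one_le_pow _ _ (by omega)
    have p2 : n ≤ n ^ ex i * n := Nat.le_mul_of_pos_left _ (by omega)
    have p3 : n ^ ex i ≤ n ^ ex i * n := Nat.le_mul_of_pos_right _ (by omega)
    have p4 : 2 * (n ^ ex i * n) ≤ n ^ ex i * n * n := by
      rw [Nat.mul_comm]; exact Nat.mul_le_mul_left _ hn2
    have p5 : 2 * (n ^ ex i * n * n) ≤ n ^ ex i * n * n * n := by
      rw [Nat.mul_comm]; exact Nat.mul_le_mul_left _ hn2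
    rw [e1] at hx
    have hq : x.length + n ^ ex i < R := by omega
    intro v
    have hall : (PT i x).AllQ (fun w => CertC R (fun v => F v w)) := by
      refine (allQ_PT i x).mono ?_
      intro w hw
      exact hF w (lt_of_le_of_lt hw hq)
    obtain ⟨T, hT, h2⟩ := br_cert_eval F R (PT i x) hall v
    refine ⟨T, hT.trans ?_, ?_⟩
    · have hd : (PT i x).depth ≤ n ^ ex i := depth_PT i x
      have : (PT i x).depth ≤ R := hd.trans (by omega)
      rw [pow_two]
      exact Nat.mul_le_mul_right _ this
    · intro v' hv'
      have := h2 v' hv'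
      rw [eval_PT, eval_PT] at this
      exact this
  | succ k ih =>
    intro s
    obtain ⟨E', hE'⟩ := ih s.tail
    set i := s.headD 0 with hi
    refine ⟨(ex i + 4) * (E' + 1), ?_⟩
    intro ι F R hF x hx
    set n := x.length + 2 with hn
    have hn2 : 2 ≤ n := by omega
    set T := n ^ ex i with hT
    have hT1 : 1 ≤ T := Nat.one_le_pow _ _ (by omega)
    have e1 : n ^ (ex i + 4) = T * n * n * n * n := by rw [hT]; ring
    have p2 : n ≤ T * n := Nat.le_mul_of_pos_left _ (by omega)
    have p3 : T ≤ T * n := Nat.le_mul_of_pos_right _ (by omega)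
    have p4 : 2 * (T * n) ≤ T * n * n := by
      rw [Nat.mul_comm]; exact Nat.mul_le_mul_left _ hn2
    have p5 : 2 * (T * n * n) ≤ T * n * n * n := by
      rw [Nat.mul_comm]; exact Nat.mul_le_mul_left _ hn2
    have p6 : 2 * (T * n * n * n) ≤ T * n * n * n * n := by
      rw [Nat.mul_comm]; exact Nat.mul_le_mul_left _ hn2
    have hbig : n + 2 * T + 2 ≤ n ^ (ex i + 4) := by rw [e1]; omega
    rw [pow_mul] at hx
    have hR0 : n ^ (ex i + 4) ≤ R := by
      refine le_trans ?_ hx
      calc n ^ (ex i + 4) = (n ^ (ex i + 4)) ^ 1 := (pow_one _).symm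
        _ ≤ (n ^ (ex i + 4)) ^ (E' + 1) := Nat.pow_le_pow_right (by omega) (by omega)
    have hR4 : 2 * T + 4 ≤ R := by omega
    have hRR : 2 * T + 2 ≤ R ^ 2 := by
      have : R ≤ R ^ 2 := by rw [pow_two]; exact Nat.le_mul_self R
      omega
    -- the pairs (witness, branch)
    have hF2 : ∀ v, SL (k + 1) s (F v) x = true ↔
        ∃ l ∈ (strs T).flatMap (fun y => branches (accT (prog i) x y T)),
          ∀ p ∈ l, join (F v) (SL k s.tail (F v)) p.1 = p.2 := by
      intro v
      rw [SL, NL_iff]
      constructor
      · rintro ⟨y, hy, h⟩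
        rw [← hi, ← hn, ← hT] at hy h
        rw [← eval_accT, eval_branches] at h
        obtain ⟨l, hl, h2⟩ := h
        exact ⟨l, List.mem_flatMap.2 ⟨y, (mem_strs T y).2 hy, hl⟩, h2⟩
      · rintro ⟨l, hl, h2⟩
        obtain ⟨y, hy, hl⟩ := List.mem_flatMap.1 hl
        refine ⟨y, (mem_strs T y).1 hy, ?_⟩
        rw [← hi, ← hn, ← hT, ← eval_accT, eval_branches]
        exact ⟨l, hl, h2⟩
    have hlen : ((strs T).flatMap (fun y => branches (accT (prog i) x y T))).length ≤
        2 ^ (R ^ 2) := by
      rw [List.length_flatMap]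
      have h1 : ((strs T).map fun y => (branches (accT (prog i) x y T)).length).sum ≤
          ((strs T).map fun _ => 2 ^ T).sum := by
        apply List.sum_le_sum
        intro y _
        exact (length_branches _).trans (Nat.pow_le_pow_right (by norm_num) (depth_accT _ _ _ _))
      refine h1.trans ?_
      rw [List.map_const', List.sum_replicate, smul_eq_mul]
      have h2 : (strs T).length ≤ 2 ^ (T + 1) := by
        have := length_strs T
        omega
      calc (strs T).length * 2 ^ T ≤ 2 ^ (T + 1) * 2 ^ T := Nat.mul_le_mul_right _ h2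
        _ = 2 ^ (2 * T + 1) := by rw [← pow_add]; congr 1; ring
        _ ≤ 2 ^ (R ^ 2) := Nat.pow_le_pow_right (by norm_num) (by omega)
    classical
    rw [show 2 * (k + 1) = (2 * k + 1) + 1 by ring]
    refine Lev.any _ hlen
      (fun l v => decide (∀ p ∈ l, join (F v) (SL k s.tail (F v)) p.1 = p.2)) ?_ ?_
    · intro l hl
      obtain ⟨y, hy, hl⟩ := List.mem_flatMap.1 hl
      have hy' := (mem_strs T y).1 hy
      obtain ⟨hl1, hl2⟩ := branches_mem _ _ (allQ_accT (prog i) x y T hy') l hl
      refine Lev.all l ?_
        (fun p v => decide (join (F v) (SL k s.tail (F v)) p.1 = p.2)) ?_ ?_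
      · have := depth_accT (prog i) x y T
        have h3 : l.length ≤ R ^ 2 := by omega
        exact h3.trans Nat.lt_two_pow_self.le
      · intro p hp
        have hp1 := hl2 p hp
        have key : Lev (R ^ 2) (2 * k) (fun v => join (F v) (SL k s.tail (F v)) p.1) := by
          have hRR2 : R ≤ R ^ 2 := by rw [pow_two]; exact Nat.le_mul_self R
          rcases hpp : p.1 with _ | ⟨b, w⟩
          · have h0 : Lev (R ^ 2) 0 (fun _ : ι → Bool => false) := CertC.const _ _
            exact h0.le (Nat.zero_le _)
          · have hwl : w.length + 1 < x.length + 2 * T + 1 := by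
              have : (p.1).length < x.length + 2 * T + 1 := hp1
              rw [hpp, List.length_cons] at this
              exact this
            cases b with
            | false =>
              have h0 : Lev (R ^ 2) 0 (fun v => F v w) :=
                CertC.mono (hF w (by omega)) hRR2
              exact h0.le (Nat.zero_le _)
            | true =>
              refine hE' ι F R hF w ?_
              calc (w.length + 2) ^ E' ≤ (n ^ (ex i + 4)) ^ E' :=
                    Nat.pow_le_pow_left (by omega) _
                _ ≤ (n ^ (ex i + 4)) ^ (E' + 1) := Nat.pow_le_pow_right (by omega) (by omega)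
                _ ≤ R := hx
        rcases hb : p.2 with _ | _
        · have := key.not
          refine (congrArg (Lev (R ^ 2) (2 * k)) ?_).mp this
          funext v
          cases join (F v) (SL k s.tail (F v)) p.1 <;> rfl
        · refine (congrArg (Lev (R ^ 2) (2 * k)) ?_).mp key
          funext v
          cases join (F v) (SL k s.tail (F v)) p.1 <;> rfl
      · intro v
        simp only [decide_eq_true_eq]
    · intro v
      rw [hF2 v]
      simp only [decide_eq_true_eq]

end Pool.Agent.PHS
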